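import Pool.Agent.R904.CH.Res

/-!
# Ranks of higher Chow groups of arithmetic schemes and trilinear forms

`ChowThy` lists the properties of the groups `CH_m(X, i) ⊗ ℚ` of schemes of finite type over `ℤ` (indexed
by dimension) which are used: localization, homotopy invariance for the affine bundles of Jouanolou, a
surjection `CH_{m+1}(X × 𝔾_m, i) → CH_m(X, i)`, and finite rank in dimension at most one (Quillen,
Harder). `K.Fin X` means that all groups `CH_m(X, i)` have finite rank.
-/

set_option autoImplicit false

open Pool.Agent.R904.CH Pool.Agent.Y116.UV AlgebraicGeometry

namespace Pool.Agent.Results.MP_12d50c_ag.TrilinearForms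

/-- (1) All higher Chow groups of all schemes of finite type over `ℤ` have finite rank if and only if
this is true for the hypersurfaces `T(x, y, z) = 1` over `ℤ`, for all trilinear forms `T` with
coefficients `0` and `1`. (2) Over a finite field `k` and for every `d`, finite ranks for the smooth
schemes over `k` of dimension at most `d` are equivalent to finite ranks for the hypersurfaces
`T(x, y, z) = 1` for trilinear forms `T` over `k` with a block of at most `d + 2` variables. (3) All higher
Chow groups of `T(x, y, z) = 1` over a finite field have finite rank, if one of the three blocks has at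
most three variables. (4) The same is true over every domain of dimension at most one and finitely
generated over `ℤ`, if one of the blocks has at most two variables. (5) These hypersurfaces are smooth over
the base ring. -/
theorem result (K : ChowThy) :
    (K.All ↔ K.ZeroOne) ∧
    (∀ (k : Type) [Field k] [Finite k], (∀ d : ℕ, K.SmoothDim k d ↔ K.Block k (d + 2)) ∧
      K.Block k 3) ∧
    (∀ (R : Type) [CommRing R] [IsDomain R] [Algebra.FiniteType ℤ R], ringKrullDim R ≤ 1 →
      K.Block R 2) ∧
    ∀ (R : Type) [CommRing R] (a b c : ℕ) (T : Fin a → Fin b → Fin c → R),
      Algebra.Smooth R (Hyp T) :=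
  ⟨all_iff K,
    fun k _ _ => ⟨fun d => (dim_iff K k d).1, fun _ _ _ T h => three K k T h⟩,
    fun R _ _ _ hd _ _ _ T h => two K R hd T h,
    fun _ _ _ _ _ T => hyp_smooth T⟩

end Pool.Agent.Results.MP_12d50c_ag.TrilinearForms
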